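import Mathlib
import Pool.Agent.L0h42.PP.P12

/-!
# Almost all even integers are sums of two primes with a prime neighbour at the same bounded distance

The conjecture asks that every even integer beyond 4208 is the sum of two twin primes, that is primes `p` for which
`p + 2` or `p - 2` is prime. Here the distance 2 is replaced by finitely many distances: there is a constant `C` such
that almost all even integers `n` are sums of two `d`-twin primes (primes `p` for which `p + d` or `p - d` is prime)
for some even `d = d(n) ≤ C`, with at least `n / (log n) ^ E` representations. More generally, for every `m` there is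
`C` such that for almost all even integers `n` there is a set `D` of `m` integers in `[1, C]` for which at least
`n / (log n) ^ E` primes `p` have the property that `q = n - p` and all `p + d`, `q - d`, `d ∈ D`, are primes as well.
All the elements of `D` can be taken divisible by a given `M`.

Proof: the weights of Maynard and Tao for the pairs `x + a_i`, `n - x - a_i`, averaged over the `n` (circle method
with a Bombieri-Vinogradov theorem for the primes twisted by additive characters), show that a positive proportion of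
the `n` has the property with a given tuple; sieving over many translates of the tuple, whose weights are
asymptotically independent in mean square, improves this to a proportion arbitrarily near to one.
-/

set_option autoImplicit false

open Finset

namespace Pool.Agent.Results.MP_c6d112_nt.AlmostAllBoundedTwins

/-- `p` is a `d`-twin prime: `p` is prime and at least one of `p + d`, `p - d` is prime (`d = 2`: twin primes) -/
def IsTwin (d p : ℕ) : Prop := p.Prime ∧ ((p + d).Prime ∨ ∃ r : ℕ, r.Prime ∧ r + d = p)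

open Classical in
/-- the number of the representations `n = p + q` in `d`-twin primes `p`, `q` -/
noncomputable def twinReps (d n : ℕ) : ℕ := ((Icc 1 n).filter (fun p => IsTwin d p ∧ IsTwin d (n - p))).card

/-- the number of the `p` for which all `p + d` and all `(n - p) - d`, `d = 0` or `d ∈ D`, are prime -/
def patternReps (D : Finset ℕ) (n : ℕ) : ℕ :=
  ((Icc 1 n).filter (fun p => ∀ d ∈ insert 0 D, (p + d).Prime ∧ (n - (p + d)).Prime)).card

/-- the number of the primes in `(x, x + C]` -/
def primesAfter (C x : ℕ) : ℕ := ((Ioc x (x + C)).filter Nat.Prime).card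

/-- the number of the representations `n = p + q` in primes `p`, `q` with at least `m` primes in each of
`(p, p + C]` and `(q, q + C]` -/
def clusterReps (m C n : ℕ) : ℕ :=
  ((Icc 1 n).filter (fun p => p.Prime ∧ (n - p).Prime ∧ m ≤ primesAfter C p ∧ m ≤ primesAfter C (n - p))).card

/-- for some even `d` in `[1, C]` there are at least `n / (log n) ^ E` representations `n = p + q` in `d`-twin primes -/
def HasTwins (C E n : ℕ) : Prop := ∃ d ∈ Icc 1 C, Even d ∧ (n : ℝ) / Real.log n ^ E ≤ twinReps d n

/-- for some set `D` of `m` multiples of `M` in `[1, C]` there are at least `n / (log n) ^ E` representations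
`n = p + q` such that `p`, `q` and all `p + d`, `q - d`, `d ∈ D`, are prime -/
def HasPattern (m M C E n : ℕ) : Prop := ∃ D ⊆ Icc 1 C, D.card = m ∧ (∀ d ∈ D, M ∣ d) ∧
  (n : ℝ) / Real.log n ^ E ≤ patternReps D n

/-- there are at least `n / (log n) ^ E` representations `n = p + q` in primes `p`, `q` with at least `m` primes in
each of `(p, p + C]` and `(q, q + C]` -/
def HasClusters (m C E n : ℕ) : Prop := (n : ℝ) / Real.log n ^ E ≤ clusterReps m C n

open Classical in
/-- the number of the even `n ≤ N` which do not have the property `P` -/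
noncomputable def exceptions (P : ℕ → Prop) (N : ℕ) : ℕ := ((Icc 1 N).filter (fun n => Even n ∧ ¬ P n)).card

theorem exceptions_le {P P' : ℕ → Prop} {n1 : ℕ} (h : ∀ n, n1 ≤ n → Even n → P n → P' n) (N : ℕ) :
    exceptions P' N ≤ n1 + exceptions P N := by
  classical
  have h1 : (Icc 1 N).filter (fun n => Even n ∧ ¬ P' n) ⊆ range n1 ∪ (Icc 1 N).filter (fun n => Even n ∧ ¬ P n) := by
    intro n hn
    rw [mem_filter] at hn
    rw [mem_union, mem_range, mem_filter]
    by_cases h2 : n < n1
    · exact Or.inl h2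
    · exact Or.inr ⟨hn.1, hn.2.1, fun h3 => hn.2.2 (h n (by omega) hn.2.1 h3)⟩
  have h2 := (card_le_card h1).trans (card_union_le _ _)
  rw [card_range] at h2
  unfold exceptions
  convert h2

theorem toNat_sub {n a : ℕ} : ((n : ℤ) + (-1) * ((a : ℕ) : ℤ)).toNat = n - a := by omega

open Pool.Agent.L0h42.PP in
theorem Pt_le (D : Finset ℕ) (n : ℕ) : (Pt (-1) 1 D n).card ≤ patternReps D n := by
  unfold patternReps
  apply card_le_card
  intro p hp
  unfold Pt at hp
  rw [mem_filter] at hp ⊢
  refine ⟨hp.1, fun d hd => ?_⟩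
  obtain ⟨h1, h2⟩ := hp.2.2 d hd
  rw [toNat_sub] at h2
  exact ⟨h1, h2⟩

/-- the pattern theorem -/
theorem patterns (m M : ℕ) (hM : 1 ≤ M) : ∃ C : ℕ, ∀ ε : ℝ, 0 < ε → ∃ E N₀ : ℕ, ∀ N : ℕ, N₀ ≤ N →
    (exceptions (HasPattern m M C E) N : ℝ) ≤ ε * N := by
  classical
  obtain ⟨C, h⟩ := Pool.Agent.L0h42.PP.pat (-1) (Or.inr rfl) m M hM
  refine ⟨C, fun ε hε => ?_⟩
  obtain ⟨E, N0, h0⟩ := h 1 le_rfl ε hε
  refine ⟨E, N0, fun N hN => le_trans (Nat.cast_le.2 ?_) (h0 N hN)⟩
  unfold exceptions
  apply card_le_card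
  intro n hn
  rw [mem_filter] at hn ⊢
  refine ⟨hn.1, hn.2.1, fun h1 => hn.2.2 ?_⟩
  obtain ⟨D, h2, h3, h4, h5⟩ := h1
  exact ⟨D, h2, h3, h4, h5.trans (Nat.cast_le.2 (Pt_le D n))⟩

theorem pattern_twin {d n : ℕ} : patternReps {d} n ≤ twinReps d n := by
  classical
  unfold patternReps twinReps
  apply card_le_card
  intro p hp
  rw [mem_filter] at hp ⊢
  obtain ⟨h1, h2⟩ := hp
  obtain ⟨h3, h4⟩ := h2 0 (mem_insert_self _ _)
  obtain ⟨h5, h6⟩ := h2 d (mem_insert_of_mem (mem_singleton_self _))
  rw [Nat.add_zero] at h3 h4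
  refine ⟨h1, ⟨h3, Or.inl h5⟩, h4, Or.inr ⟨n - (p + d), h6, ?_⟩⟩
  have := h6.pos
  omega

/-- the median of a set of `2 m + 1` integers -/
theorem median (S : Finset ℕ) (m : ℕ) (hS : S.card = 2 * m + 1) : ∃ δ ∈ S,
    m ≤ (S.filter (fun d => δ < d)).card ∧ m ≤ (S.filter (fun d => d < δ)).card := by
  obtain ⟨f, hf⟩ : ∃ f, f = S.orderEmbOfFin hS := ⟨_, rfl⟩
  have hfS : ∀ i, f i ∈ S := fun i => by rw [hf]; exact orderEmbOfFin_mem _ _ _
  have hmono : StrictMono f := f.strictMono
  have h0 : m < 2 * m + 1 := by omega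
  refine ⟨f ⟨m, h0⟩, hfS _, ?_, ?_⟩
  · have h1 : (univ : Finset (Fin m)).card ≤ (S.filter (fun d => f ⟨m, h0⟩ < d)).card := by
      apply card_le_card_of_injOn (fun i : Fin m => f ⟨m + 1 + i.val, by have := i.2; omega⟩)
      · intro i _
        rw [mem_coe, mem_filter]
        exact ⟨hfS _, hmono (Fin.mk_lt_mk.2 (by omega))⟩
      · intro i _ j _ hij
        have h2 := f.injective hij
        rw [Fin.mk.injEq] at h2
        exact Fin.ext (by omega)
    simpa using h1
  · have h1 : (univ : Finset (Fin m)).card ≤ (S.filter (fun d => d < f ⟨m, h0⟩)).card := by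
      apply card_le_card_of_injOn (fun i : Fin m => f ⟨i.val, by have := i.2; omega⟩)
      · intro i _
        rw [mem_coe, mem_filter]
        exact ⟨hfS _, hmono (Fin.mk_lt_mk.2 i.2)⟩
      · intro i _ j _ hij
        have h2 := f.injective hij
        rw [Fin.mk.injEq] at h2
        exact Fin.ext (by omega)
    simpa using h1

theorem pattern_cluster {m C n : ℕ} {D : Finset ℕ} (hD : D ⊆ Icc 1 C) (hm : D.card = 2 * m) :
    patternReps D n ≤ clusterReps m C n := by
  have h0 : (0 : ℕ) ∉ D := fun h => by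
    have := mem_Icc.1 (hD h)
    omega
  have hS : (insert 0 D).card = 2 * m + 1 := by rw [card_insert_of_notMem h0, hm]
  obtain ⟨δ, hδ, h1, h2⟩ := median _ m hS
  have hC : ∀ d ∈ insert 0 D, d ≤ C := fun d hd => by
    rw [mem_insert] at hd
    rcases hd with rfl | hd
    · exact Nat.zero_le _
    · exact (mem_Icc.1 (hD hd)).2
  unfold patternReps clusterReps
  apply card_le_card_of_injOn (fun p => p + δ)
  · intro p hp
    rw [mem_coe, mem_filter, mem_Icc] at hp
    obtain ⟨⟨hp1, hp2⟩, hp3⟩ := hp
    obtain ⟨h3, h4⟩ := hp3 δ hδ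
    have h5 := h4.pos
    rw [mem_coe, mem_filter, mem_Icc]
    show (1 ≤ p + δ ∧ p + δ ≤ n) ∧ (p + δ).Prime ∧ (n - (p + δ)).Prime ∧ m ≤ primesAfter C (p + δ) ∧
      m ≤ primesAfter C (n - (p + δ))
    refine ⟨⟨by omega, by omega⟩, h3, h4, h1.trans ?_, h2.trans ?_⟩
    · unfold primesAfter
      apply card_le_card_of_injOn (fun d => p + d)
      · intro d hd
        rw [mem_coe, mem_filter] at hd
        rw [mem_coe, mem_filter, mem_Ioc]
        have := hC d hd.1
        show (p + δ < p + d ∧ p + d ≤ p + δ + C) ∧ (p + d).Prime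
        exact ⟨⟨by omega, by omega⟩, (hp3 d hd.1).1⟩
      · intro d _ d' _ h
        simpa using h
    · unfold primesAfter
      apply card_le_card_of_injOn (fun d => n - (p + d))
      · intro d hd
        rw [mem_coe, mem_filter] at hd
        rw [mem_coe, mem_filter, mem_Ioc]
        have := hC δ hδ
        show (n - (p + δ) < n - (p + d) ∧ n - (p + d) ≤ n - (p + δ) + C) ∧ (n - (p + d)).Prime
        exact ⟨⟨by omega, by omega⟩, (hp3 d hd.1).2⟩
      · intro d hd d' hd' h
        rw [mem_coe, mem_filter] at hd hd'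
        simp only at h
        omega
  · intro d _ d' _ h
    simpa using h

/-- (1) For some `C` almost all even `n` are, for some even `d ≤ C`, sums of two `d`-twin primes. (2) For every `m`
and `M ≥ 1` there is `C` such that almost all even `n` are sums of two primes `p`, `q` with `p + d`, `q - d` prime for
all `d` in a set of `m` multiples of `M` in `[1, C]`. (3) For every `m` there is `C` such that almost all even `n` are
sums of two primes which are both followed by `m` primes at distance at most `C`. -/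
theorem result :
    (∃ C : ℕ, ∀ ε : ℝ, 0 < ε → ∃ E N₀ : ℕ, ∀ N : ℕ, N₀ ≤ N →
      (exceptions (HasTwins C E) N : ℝ) ≤ ε * N) ∧
    (∀ m M : ℕ, 1 ≤ M → ∃ C : ℕ, ∀ ε : ℝ, 0 < ε → ∃ E N₀ : ℕ, ∀ N : ℕ, N₀ ≤ N →
      (exceptions (HasPattern m M C E) N : ℝ) ≤ ε * N) ∧
    (∀ m : ℕ, ∃ C : ℕ, ∀ ε : ℝ, 0 < ε → ∃ E N₀ : ℕ, ∀ N : ℕ, N₀ ≤ N →
      (exceptions (HasClusters m C E) N : ℝ) ≤ ε * N) := by
  refine ⟨?_, patterns, fun m => ?_⟩
  · obtain ⟨C, h⟩ := patterns 1 2 (by norm_num)
    refine ⟨C, fun ε hε => ?_⟩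
    obtain ⟨E, N0, h0⟩ := h ε hε
    refine ⟨E, N0, fun N hN => le_trans (Nat.cast_le.2 ?_) (h0 N hN)⟩
    rw [← Nat.zero_add (exceptions (HasPattern 1 2 C E) N)]
    apply exceptions_le
    rintro n - - ⟨D, h1, h2, h3, h4⟩
    obtain ⟨d, rfl⟩ := card_eq_one.1 h2
    exact ⟨d, h1 (mem_singleton_self d), even_iff_two_dvd.2 (h3 d (mem_singleton_self d)),
      h4.trans (Nat.cast_le.2 pattern_twin)⟩
  · obtain ⟨C, h⟩ := patterns (2 * m) 1 le_rfl
    refine ⟨C, fun ε hε => ?_⟩
    obtain ⟨E, N0, h0⟩ := h ε hε
    refine ⟨E, N0, fun N hN => le_trans (Nat.cast_le.2 ?_) (h0 N hN)⟩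
    rw [← Nat.zero_add (exceptions (HasPattern (2 * m) 1 C E) N)]
    apply exceptions_le
    rintro n - - ⟨D, h1, h2, h3, h4⟩
    exact h4.trans (Nat.cast_le.2 (pattern_cluster h1 h2))

end Pool.Agent.Results.MP_c6d112_nt.AlmostAllBoundedTwins
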