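import Mathlib
import Pool.Agent.L0h42.TB.B26

/-!
# Almost all even integers are sums of two primes which are followed by other primes at bounded distance

The conjecture asks that every even integer beyond 4208 is the sum of two primes which have a prime neighbour at
distance 2. Here the distance 2 is replaced by `C`: the even integers which are not sums of two primes `p`, `q` with
`m` further primes in each of `(p, p + C]`, `(q, q + C]` have upper density at most `C ^ (-c)`; hence almost all even
integers `n` are such sums if `C = ψ(n)` tends to infinity with `n`, however slowly. The bound is uniform for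
`C ≤ log X`, and the number of the representations is at least `X / (log X) ^ B`.

With bounded `C` the same holds for all but `X / (log X) ^ A` even integers `n ≤ X`, every `A`, in the form that
`n = a + b` where both `(a, a + C]` and `(b, b + C]` contain `m` primes.

Proof: the weights of Maynard and Tao for the tuples `a + h_i` and `n - a + h'_j` at the same time, the circle method
with a Bombieri-Vinogradov theorem for the primes twisted by additive characters on the minor arcs and in the mean
over the moduli on the major arcs; then the grids `h_i + h'_j` are moved (theorem of Kovari, Sos and Turan).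
-/

set_option autoImplicit false

open Finset

namespace Pool.Agent.Results.MP_c6d112_nt.AlmostAllWithClusters

/-- the number of the primes in `(x, x + C]` -/
def primesAfter (C x : ℕ) : ℕ := ((Ioc x (x + C)).filter Nat.Prime).card

/-- the number of the representations `n = p + q` in primes `p`, `q` with at least `m` primes in each of
`(p, p + C]` and `(q, q + C]` -/
def reps (m C n : ℕ) : ℕ :=
  ((Icc 1 n).filter (fun p => p.Prime ∧ (n - p).Prime ∧ m ≤ primesAfter C p ∧ m ≤ primesAfter C (n - p))).card

/-- the number of the `a`, `1 ≤ a ≤ n`, with at least `m` primes in each of `(a, a + C]` and `(n - a, n - a + C]` -/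
def windows (m C n : ℕ) : ℕ :=
  ((Icc 1 n).filter (fun a => m ≤ primesAfter C a ∧ m ≤ primesAfter C (n - a))).card

theorem result :
    (∀ m : ℕ, ∃ c : ℝ, 0 < c ∧ ∃ B C₀ X₀ : ℕ, ∀ X : ℕ, X₀ ≤ X → ∀ C : ℕ, C₀ ≤ C → (C : ℝ) ≤ Real.log X →
      (((Icc 1 X).filter (fun n => Even n ∧ (reps m C n : ℝ) < X / Real.log X ^ B)).card : ℝ) ≤ X * (C : ℝ) ^ (-c)) ∧
    (∀ m : ℕ, ∀ ψ : ℕ → ℕ, Filter.Tendsto ψ Filter.atTop Filter.atTop → ∀ ε : ℝ, 0 < ε → ∃ X₀ : ℕ, ∀ X : ℕ, X₀ ≤ X →
      (((Icc 1 X).filter (fun n => Even n ∧ reps m (ψ n) n = 0)).card : ℝ) ≤ ε * X) ∧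
    (∀ m : ℕ, 1 ≤ m → ∃ C : ℕ, ∀ A : ℕ, ∃ B X₀ : ℕ, ∀ X : ℕ, X₀ ≤ X →
      (((Icc 1 X).filter (fun n => Even n ∧ (windows m C n : ℝ) < X / Real.log X ^ B)).card : ℝ) ≤ X / Real.log X ^ A) :=
  ⟨Pool.Agent.L0h42.TB.all_rep, fun m ψ hψ ε hε => Pool.Agent.L0h42.TB.psi_rep m ψ hψ ε hε, Pool.Agent.L0h42.TB.all_win⟩

end Pool.Agent.Results.MP_c6d112_nt.AlmostAllWithClusters
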