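import Mathlib
import Pool.Agent.L0h42.BS.A3

/-!
# Every large integer is a sum of boundedly many primes which start the same pattern of primes

The conjecture asks that every even integer beyond 4208 is the sum of two primes which have a prime neighbour at
distance 2. Here two summands are replaced by at most `s` summands, and the distance 2 is replaced by a set `D` of `m`
bounded distances, the SAME for all summands; the result holds for EVERY large integer `n`. The set `D` depends on `n`
and has only boundedly many possibilities. In addition all the shifts by the elements of a given admissible set `S`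
are almost primes, for instance (`S = {2}`) all the numbers `p + 2` and `p + h + 2`.
-/

set_option autoImplicit false

open Finset Filter

namespace Pool.Agent.Results.MP_c6d112_nt.BoundedSumsCommonPattern

/-- For every prime `l` there is an `r` such that `l` divides neither `r` nor any `r + a`, `a ∈ S`. -/
def Admissible (S : Finset ℤ) : Prop := ∀ l : ℕ, l.Prime → ∃ r : ℤ, ¬ (l : ℤ) ∣ r ∧ ∀ a ∈ S, ¬ (l : ℤ) ∣ r + a

/-- All `q + a`, `a ∈ S`, are positive with at most `r` prime factors (with multiplicity). -/
def AlmostPrimeShifts (S : Finset ℤ) (r q : ℕ) : Prop :=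
  ∀ a ∈ S, 0 < (q : ℤ) + a ∧ ArithmeticFunction.cardFactors ((q : ℤ) + a).toNat ≤ r

/-- `p` and all `p + h`, `h ∈ D`, are primes with almost prime shifts. -/
def StartsPattern (S : Finset ℤ) (r : ℕ) (D : Finset ℕ) (p : ℕ) : Prop :=
  ∀ h ∈ insert 0 D, (p + h).Prime ∧ AlmostPrimeShifts S r (p + h)

/-- For every admissible `S` and every `m` there are `s`, `r`, `C` such that for every large `n` there are a set `D` of
`m` integers in `[1, C]` and a list of at most `s` primes with sum `n`, all of which start the pattern `D`. -/
theorem result : ∀ S : Finset ℤ, Admissible S → ∀ m : ℕ, ∃ s r C : ℕ, ∀ᶠ n : ℕ in atTop,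
    ∃ D : Finset ℕ, D ⊆ Icc 1 C ∧ D.card = m ∧
      ∃ l : List ℕ, l.length ≤ s ∧ (∀ p ∈ l, StartsPattern S r D p) ∧ l.sum = n := by
  classical
  intro S hS m
  obtain ⟨s, r, C, h⟩ := Pool.Agent.L0h42.BS.pattern_basis S hS m
  refine ⟨s, r, C, ?_⟩
  filter_upwards [h] with n hn
  obtain ⟨D, h1, h2, l, h3, h4, h5⟩ := hn
  refine ⟨D, h1, h2, l, h3, fun p hp h hh => ?_, h5⟩
  exact h4 p hp h (by convert hh)

end Pool.Agent.Results.MP_c6d112_nt.BoundedSumsCommonPattern
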