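import Pool.Agent.L0h43.TF.Many

/-!
# Every large even number: sums with almost prime neighbours of both summands

For all `k`, `k'` there is `c > 0` such that EVERY large even `N` has the following property. Let `I`, `I'` be windows
of lengths `H`, `H' ≥ K log N` inside `[1, (log N) ^ A]`. For almost all pairs `(D, D')` of a `k`-element subset of `I`
and a `k'`-element subset of `I'` for which the linear forms `m`, `N - m`, `m + d` (`d ∈ D`), `N - m + d'`
(`d' ∈ D'`) have no fixed prime divisor, there are at least `c (N / φ(N)) N / (log N) ^ (k + k' + 2)` primes `p ≤ N`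
for which `N - p`, all `p + d` and all `N - p + d'` are almost primes: at most three prime factors, all of them at least
`N ^ (3 / 25)`. So every large even `N` is a sum `p + m` of a prime and an almost prime which both have almost prime
neighbours at almost all distances (`k = k' = 1`), in almost all constellations (`k`, `k'` larger).

Method. Lower bound for the primes `p` in a class with `N - p` almost prime, for every even `N` (Chen's weighted
sieve, theorem of Bombieri and Vinogradov). Then one neighbour after the other: the variance of a minorant for almost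
primes in a window is small over all `n` for which the earlier elements of the constellation have no small prime
factor. The elements `N - n + s` are brought in with shifts `t ≡ -(N + s)` modulo all primes below `N ^ (1 / 16)`; the
averages of the local factors `∏ (1 - 1 / p) ^ (-r)`, `p ∣ N + s + h`, over `h` in a window of length `K log N` are
close to one, for every `N`, although `N + s + h` is large.
-/

set_option autoImplicit false

open Finset Filter

namespace Pool.Agent.Results.MP_c6d112_nt.EveryEvenAlmostTwins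

/-- `m` has at most three prime factors (counted with multiplicity), all of them at least
`N ^ (3 / 25)` -/
def almostPrime (N m : ℕ) : Prop :=
  m.primeFactorsList.length ≤ 3 ∧ ∀ q : ℕ, q.Prime → q ∣ m → (N : ℝ) ^ (3 / 25 : ℝ) ≤ q

open Classical in
/-- the number of primes `p ≤ N`, `N - p > 1`, for which `N - p`, all `p + d` (`d ∈ D`) and all
`N - p + d` (`d ∈ D'`) are almost primes -/
noncomputable def reps (N : ℕ) (D D' : Finset ℕ) : ℕ :=
  ((Icc 1 N).filter (fun p => p.Prime ∧ 1 < N - p ∧ almostPrime N (N - p) ∧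
    (∀ d ∈ D, almostPrime N (p + d)) ∧ ∀ d ∈ D', almostPrime N (N - p + d))).card

/-- the linear forms `m`, `N - m`, `m + d` (`d ∈ D`), `N - m + d` (`d ∈ D'`) have no fixed prime divisor -/
def NoFixedDivisor (N : ℕ) (D D' : Finset ℕ) : Prop :=
  ∀ q : ℕ, q.Prime → ∃ m : ℤ, ¬ (q : ℤ) ∣ m ∧ ¬ (q : ℤ) ∣ (N : ℤ) - m ∧
    (∀ d ∈ D, ¬ (q : ℤ) ∣ m + d) ∧ ∀ d ∈ D', ¬ (q : ℤ) ∣ (N : ℤ) - m + d

open Classical in
/-- the pairs of a `k`-element set `D ⊆ I` and a `k'`-element set `D' ⊆ I'` without fixed divisor -/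
noncomputable def pairs (N k k' : ℕ) (I I' : Finset ℕ) : Finset (Finset ℕ × Finset ℕ) :=
  (I.powersetCard k ×ˢ I'.powersetCard k').filter (fun q => NoFixedDivisor N q.1 q.2)

open Classical in
/-- the pairs with `reps N D D' < c (N / φ(N)) N / (log N) ^ (k + k' + 2)` -/
noncomputable def few (N : ℕ) (c : ℝ) (k k' : ℕ) (I I' : Finset ℕ) : Finset (Finset ℕ × Finset ℕ) :=
  (pairs N k k' I I').filter (fun q =>
    (reps N q.1 q.2 : ℝ) < c * ((N : ℝ) / Nat.totient N * (N / Real.log N ^ (k + k' + 2))))

open Pool.Agent.L0h43.TF Pool.Agent.L0h43.TD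

theorem cG_eq (N : ℕ) (D D' : Finset ℕ) : cG N D D' = reps N D D' := by
  unfold cG reps
  congr!

/-- For all `k`, `k' ∈ ℕ` there is `c > 0` such that for every `ε > 0` there is `K` such that for every `A ≥ 0`,
EVERY large even `N` and all `u`, `H`, `u'`, `H'` with `K log N ≤ H, H'` and `u + H, u' + H' ≤ (log N) ^ A`: among
the pairs `(D, D')` of a `k`-element set `D ⊆ (u, u + H]` and a `k'`-element set `D' ⊆ (u', u' + H']` there are at
least `c (H choose k) (H' choose k')` without fixed divisor, and for all but at most `ε (H choose k) (H' choose k')` of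
these `reps N D D' ≥ c (N / φ(N)) N / (log N) ^ (k + k' + 2)`. -/
theorem result (k k' : ℕ) : ∃ c : ℝ, 0 < c ∧ ∀ ε : ℝ, 0 < ε → ∃ K : ℝ, ∀ A : ℝ, 0 ≤ A → ∃ N₀ : ℕ,
    ∀ N : ℕ, N₀ ≤ N → Even N → ∀ u H u' H' : ℕ, K * Real.log N ≤ H → K * Real.log N ≤ H' →
      ((u + H : ℕ) : ℝ) ≤ Real.log N ^ A → ((u' + H' : ℕ) : ℝ) ≤ Real.log N ^ A →
      c * ((H.choose k : ℝ) * (H'.choose k' : ℝ)) ≤
        ((pairs N k k' (Ioc u (u + H)) (Ioc u' (u' + H'))).card : ℝ) ∧
      ((few N c k k' (Ioc u (u + H)) (Ioc u' (u' + H'))).card : ℝ) ≤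
        ε * ((H.choose k : ℝ) * (H'.choose k' : ℝ)) := by
  classical
  obtain ⟨c1, hc1, H1⟩ := evenAE Pool.Agent.L0h10.GE.t_GBL Pool.Agent.L0h10.GE.t_MAV k k'
  obtain ⟨c2, hc2, H₀, H2⟩ := open_many k k'
  refine ⟨min c1 c2, lt_min hc1 hc2, fun ε hε => ?_⟩
  obtain ⟨K, hK, H3⟩ := H1 ε hε
  refine ⟨K, fun A hA => ?_⟩
  obtain ⟨N1, hN1⟩ := H3 A hA
  have tL : Tendsto (fun N : ℕ => Real.log (N : ℝ)) atTop atTop :=
    Real.tendsto_log_atTop.comp tendsto_natCast_atTop_atTop
  obtain ⟨N2, hN2⟩ := eventually_atTop.1 (tL.eventually_ge_atTop (max 1 (H₀ : ℝ)))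
  refine ⟨max N1 N2, fun N hN he u H u' H' hKH hKH' hA1 hA2 => ?_⟩
  have hNN1 : N1 ≤ N := (le_max_left _ _).trans hN
  have hL := hN2 N ((le_max_right _ _).trans hN)
  have hL1 : 1 ≤ Real.log (N : ℝ) := (le_max_left _ _).trans hL
  have hLH0 : (H₀ : ℝ) ≤ Real.log (N : ℝ) := (le_max_right _ _).trans hL
  have hLK : Real.log (N : ℝ) ≤ K * Real.log N := le_mul_of_one_le_left (by linarith) hK
  have hH0 : H₀ ≤ H := by
    have : (H₀ : ℝ) ≤ H := by linarith
    exact_mod_cast this
  have hH0' : H₀ ≤ H' := by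
    have : (H₀ : ℝ) ≤ H' := by linarith
    exact_mod_cast this
  have hpairs : pairs N k k' (Ioc u (u + H)) (Ioc u' (u' + H')) =
      ((Ioc u (u + H)).powersetCard k ×ˢ (Ioc u' (u' + H')).powersetCard k').filter
        (fun q => Opn N q.1 q.2) := by
    unfold pairs
    congr!
  constructor
  · rw [hpairs]
    refine le_trans ?_ (H2 N he u H u' H' hH0 hH0')
    exact mul_le_mul_of_nonneg_right (min_le_right _ _) (by positivity)
  · refine le_trans ?_ (hN1 N hNN1 he u H u' H' hKH hA1 hKH' hA2)
    rw [Nat.cast_le]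
    apply card_le_card
    intro q hq
    unfold few at hq
    rw [hpairs, mem_filter, mem_filter] at hq
    unfold bdG
    rw [mem_filter]
    refine ⟨hq.1.1, hq.1.2, ?_⟩
    rw [cG_eq]
    refine lt_of_lt_of_le hq.2 ?_
    exact mul_le_mul_of_nonneg_right (min_le_left _ _) (by positivity)

end Pool.Agent.Results.MP_c6d112_nt.EveryEvenAlmostTwins
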